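import Mathlib
import Pool.Agent.Helper98.BH.Defs
import Pool.Agent.Helper98.BH.Graph

/-!
# BH-10a: coding of `Bai × Inc` into the infinite sets
-/

namespace Pool.Agent.BH

/-- cumulative code of the first `k` values of `r` -/
def dcode (r : Bai) : ℕ → ℕ
  | 0 => 0
  | k + 1 => Nat.pair (dcode r k) (r k) + 1

lemma dcode_lt_succ (r : Bai) (k : ℕ) : dcode r k < dcode r (k + 1) :=
  Nat.lt_succ_of_le (Nat.left_le_pair _ _)

lemma dcode_strictMono (r : Bai) : StrictMono (dcode r) :=
  strictMono_nat_of_lt_succ (dcode_lt_succ r)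

lemma dcode_inj (r r' : Bai) : ∀ k k', dcode r k = dcode r' k' →
    k = k' ∧ ∀ i, i < k → r i = r' i := by
  intro k
  induction k with
  | zero =>
    intro k' h
    cases k' with
    | zero => exact ⟨rfl, fun i hi => absurd hi (Nat.not_lt_zero i)⟩
    | succ k' => exact absurd h (by simp [dcode])
  | succ k ih =>
    intro k' h
    cases k' with
    | zero => exact absurd h (by simp [dcode])
    | succ k' =>
      simp only [dcode, Nat.add_right_cancel_iff, Nat.pair_eq_pair] at h
      obtain ⟨h1, h2⟩ := ih k' h.1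
      subst h1
      refine ⟨rfl, ?_⟩
      intro i hi
      rcases Nat.lt_succ_iff_lt_or_eq.1 hi with h3 | h3
      · exact h2 i h3
      · rw [h3]; exact h.2

lemma measurable_dcode (k : ℕ) : Measurable (fun r : Bai => dcode r k) := by
  induction k with
  | zero => exact measurable_const
  | succ k ih =>
    have h1 : Measurable (fun r : Bai => (dcode r k, r k)) := ih.prodMk (measurable_pi_apply k)
    have h2 : Measurable (fun p : ℕ × ℕ => Nat.pair p.1 p.2 + 1) := measurable_of_countable _
    exact h2.comp h1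

open Classical in
/-- the coding of a pair -/
noncomputable def encF (q : Bai × Inc) : ℕ → Bool := fun j => decide (∃ n, dcode q.1 (q.2.1 n) = j)

lemma encF_iff (q : Bai × Inc) (j : ℕ) : encF q j = true ↔ ∃ n, dcode q.1 (q.2.1 n) = j := by
  unfold encF; exact @decide_eq_true_iff _ (Classical.propDecidable _)

lemma encF_infinite (q : Bai × Inc) : {j | encF q j = true}.Infinite := by
  apply Set.infinite_of_injective_forall_mem (f := fun n : ℕ => dcode q.1 (q.2.1 n))
  · exact ((dcode_strictMono q.1).comp q.2.2).injective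
  · intro n
    exact (encF_iff q _).2 ⟨n, rfl⟩

lemma measurable_encF : Measurable encF := by
  rw [measurable_pi_iff]
  intro j
  have hset : MeasurableSet {q : Bai × Inc | ∃ n, dcode q.1 (q.2.1 n) = j} := by
    have : {q : Bai × Inc | ∃ n, dcode q.1 (q.2.1 n) = j} =
        ⋃ n : ℕ, ⋃ k : ℕ, {q : Bai × Inc | q.2.1 n = k} ∩ {q : Bai × Inc | dcode q.1 k = j} := by
      ext q
      simp only [Set.mem_setOf_eq, Set.mem_iUnion, Set.mem_inter_iff]
      constructor
      · rintro ⟨n, hn⟩; exact ⟨n, _, rfl, hn⟩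
      · rintro ⟨n, k, hk, hj⟩; exact ⟨n, by rw [hk]; exact hj⟩
    rw [this]
    refine MeasurableSet.iUnion (fun n => MeasurableSet.iUnion (fun k => ?_))
    refine MeasurableSet.inter ?_ ?_
    · have : Measurable (fun q : Bai × Inc => q.2.1 n) :=
        (measurable_pi_apply n).comp (measurable_subtype_coe.comp measurable_snd)
      exact this (measurableSet_singleton k)
    · have : Measurable (fun q : Bai × Inc => dcode q.1 k) :=
        (measurable_dcode k).comp measurable_fst
      exact this (measurableSet_singleton j)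
  apply measurable_to_bool
  have : (fun q => encF q j) ⁻¹' {true} = {q : Bai × Inc | ∃ n, dcode q.1 (q.2.1 n) = j} := by
    ext q
    simp only [Set.mem_preimage, Set.mem_singleton_iff, Set.mem_setOf_eq]
    exact encF_iff q j
  rw [this]; exact hset

theorem exists_enc : ∃ enc : Bai × Inc → InfSet, Measurable enc ∧ Function.Injective enc ∧
    ∀ r x, IsDel (enc (r, x)) (enc (r, shift x)) := by
  refine ⟨fun q => ⟨encF q, encF_infinite q⟩, measurable_encF.subtype_mk, ?_, ?_⟩
  · intro q q' h
    have h0 : encF q = encF q' := congrArg Subtype.val h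
    have key : ∀ p p' : Bai × Inc, encF p = encF p' → ∀ n, ∃ m, p.2.1 n = p'.2.1 m ∧
        ∀ i, i < p.2.1 n → p.1 i = p'.1 i := by
      intro p p' hp n
      have h1 : encF p (dcode p.1 (p.2.1 n)) = true := (encF_iff p _).2 ⟨n, rfl⟩
      rw [hp, encF_iff] at h1
      obtain ⟨m, hm⟩ := h1
      obtain ⟨h2, h3⟩ := dcode_inj _ _ _ _ hm.symm
      exact ⟨m, h2, h3⟩
    have hr : q.1 = q'.1 := by
      funext i
      obtain ⟨m, _, h3⟩ := key q q' h0 (i + 1)
      exact h3 i (lt_of_lt_of_le (Nat.lt_succ_self i) (q.2.2.id_le (i + 1)))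
    have hx : Set.range q.2.1 = Set.range q'.2.1 := by
      apply Set.Subset.antisymm
      · rintro _ ⟨n, rfl⟩
        obtain ⟨m, h2, _⟩ := key q q' h0 n
        exact ⟨m, h2.symm⟩
      · rintro _ ⟨n, rfl⟩
        obtain ⟨m, h2, _⟩ := key q' q h0.symm n
        exact ⟨m, h2.symm⟩
    have hx' : q.2.1 = q'.2.1 := (q.2.2.range_inj q'.2.2).1 hx
    exact Prod.ext hr (Subtype.ext hx')
  · intro r x
    refine ⟨dcode r (x.1 0), ⟨?_, ?_⟩, ?_⟩
    · exact (encF_iff _ _).2 ⟨0, rfl⟩
    · intro j hj
      obtain ⟨n, rfl⟩ := (encF_iff _ _).1 hj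
      exact (dcode_strictMono r).monotone (x.2.monotone (Nat.zero_le n))
    · ext j
      simp only [Set.mem_setOf_eq, Set.mem_diff, Set.mem_singleton_iff, encF_iff]
      constructor
      · rintro ⟨n, rfl⟩
        refine ⟨⟨n + 1, rfl⟩, ?_⟩
        intro h
        have := (dcode_strictMono r).injective h
        rw [shift_apply] at this
        exact absurd (x.2.injective this) (Nat.succ_ne_zero n)
      · rintro ⟨⟨n, rfl⟩, h⟩
        cases n with
        | zero => exact absurd rfl h
        | succ n => exact ⟨n, rfl⟩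

end Pool.Agent.BH
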